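import Mathlib
import Pool.Agent.H71MU.Metric
import Pool.Agent.H18PC.Cover

/-!
Bi-invariant ultrametrics and weakly sofic groups.
-/

set_option autoImplicit false

namespace Pool.Agent.H10UM

open H71MU Filter Topology

universe u

/-- `G` is weakly sofic: every finitely generated subgroup embeds (algebraically) into a metric
ultraproduct of finite groups with bi-invariant metrics. -/
def WeaklySofic (G : Type u) [Group G] : Prop :=
  ∀ S : Finset G, ∃ (ι : Type u) (H : ι → Type u) (_ : ∀ i, Group (H i)) (_ : ∀ i, Finite (H i))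
    (d : ∀ i, H i → H i → ℝ) (hd : ∀ i, BiMetric (H i) (d i)) (U : Ultrafilter ι)
    (φ : Subgroup.closure (S : Set G) →* Ultraproduct U d hd), Function.Injective φ

theorem exists_delta {α : Type*} (s : Finset α) (g : α → ℝ) (hg : ∀ a ∈ s, 0 < g a) :
    ∃ δ, 0 < δ ∧ ∀ a ∈ s, δ < g a := by
  classical
  induction s using Finset.induction_on with
  | empty => exact ⟨1, one_pos, by simp⟩
  | insert a s ha ih =>
    obtain ⟨δ, h1, h2⟩ := ih (fun b hb => hg b (Finset.mem_insert_of_mem hb))
    have h3 := hg a (Finset.mem_insert_self a s)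
    refine ⟨min δ (g a / 2), lt_min h1 (half_pos h3), ?_⟩
    intro b hb
    rcases Finset.mem_insert.1 hb with rfl | hb
    · exact lt_of_le_of_lt (min_le_right _ _) (half_lt_self h3)
    · exact lt_of_le_of_lt (min_le_left _ _) (h2 b hb)

theorem biMetric_min {F : Type*} [Group F] {d : F → F → ℝ} (hd : BiMetric F d) {δ : ℝ}
    (hδ : 0 < δ) : BiMetric F (fun u v => min 1 (d u v / δ)) := by
  have hn : ∀ a b, 0 ≤ d a b / δ := fun a b => div_nonneg (hd.nonneg a b) hδ.le
  refine ⟨?_, ?_, ?_, ?_, ?_⟩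
  · intro a b
    constructor
    · intro h
      rcases le_total (1 : ℝ) (d a b / δ) with h1 | h1
      · rw [min_eq_left h1] at h
        exact absurd h one_ne_zero
      · rw [min_eq_right h1] at h
        rcases div_eq_zero_iff.1 h with h2 | h2
        · exact (hd.eq_zero_iff a b).1 h2
        · exact absurd h2 hδ.ne'
    · rintro rfl
      rw [hd.self, zero_div]
      exact min_eq_right zero_le_one
  · intro a b
    rw [hd.symm]
  · intro a b c
    have h1 := hd.triangle a b c
    have h2 : d a c / δ ≤ d a b / δ + d b c / δ := by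
      rw [← add_div]
      exact div_le_div_of_nonneg_right h1 hδ.le
    have h3 := hn a b
    have h4 := hn b c
    rcases le_total (1 : ℝ) (d a b / δ) with h5 | h5
    · rw [min_eq_left h5]
      have h6 : 0 ≤ min 1 (d b c / δ) := le_min zero_le_one h4
      linarith [min_le_left (1 : ℝ) (d a c / δ)]
    · rw [min_eq_right h5]
      rcases le_total (1 : ℝ) (d b c / δ) with h6 | h6
      · rw [min_eq_left h6]
        linarith [min_le_left (1 : ℝ) (d a c / δ)]
      · rw [min_eq_right h6]
        linarith [min_le_right (1 : ℝ) (d a c / δ)]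
  · intro g a b
    rw [hd.left]
  · intro g a b
    rw [hd.right]

/-- Finite models of a weakly sofic group for the discrete metric. -/
theorem ws_approx {Q : Type u} [Group Q] (h : WeaklySofic Q) (B : Finset Q) {ε : ℝ}
    (hε : 0 < ε) :
    ∃ (F : Type u) (_ : Group F) (_ : Finite F) (d : F → F → ℝ) (_ : BiMetric F d) (f : Q → F),
      (∀ u v, d u v ≤ 1) ∧ (∀ x ∈ B, ∀ y ∈ B, x ≠ y → d (f x) (f y) = 1) ∧
      (∀ x ∈ B, ∀ y ∈ B, d (f (x * y)) (f x * f y) ≤ ε) := by
  classical
  obtain ⟨ι, H, iG, iF, d, hd, U, φ, hφ⟩ := h B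
  have hB : ∀ x ∈ B, x ∈ Subgroup.closure (B : Set Q) := fun x hx => Subgroup.subset_closure hx
  choose rep hrep using fun g : Subgroup.closure (B : Set Q) =>
    QuotientGroup.mk_surjective (φ g)
  let r : Q → Bounded d hd := fun q =>
    if h : q ∈ Subgroup.closure (B : Set Q) then rep ⟨q, h⟩ else 1
  have hr : ∀ q (h : q ∈ Subgroup.closure (B : Set Q)),
      (QuotientGroup.mk (r q) : Ultraproduct U d hd) = φ ⟨q, h⟩ := by
    intro q h
    simp only [r, h, dif_pos]
    exact hrep _
  have hbi := udist_biMetric U d hd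
  have hpos : ∀ x ∈ B, ∀ y ∈ B, x ≠ y →
      0 < udist U d hd (QuotientGroup.mk (r x)) (QuotientGroup.mk (r y)) := by
    intro x hx y hy hxy
    refine lt_of_le_of_ne (hbi.nonneg _ _) (fun h0 => hxy ?_)
    have h1 := (hbi.eq_zero_iff _ _).1 h0.symm
    rw [hr x (hB x hx), hr y (hB y hy)] at h1
    exact congrArg Subtype.val (hφ h1)
  obtain ⟨δ, hδ, hδB⟩ := exists_delta ((B ×ˢ B).filter fun p => p.1 ≠ p.2)
    (fun p => udist U d hd (QuotientGroup.mk (r p.1)) (QuotientGroup.mk (r p.2))) (by
      intro p hp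
      obtain ⟨hp1, hp2⟩ := Finset.mem_filter.1 hp
      obtain ⟨hp3, hp4⟩ := Finset.mem_product.1 hp1
      exact hpos _ hp3 _ hp4 hp2)
  have hev : ∀ p ∈ B ×ˢ B, ∀ᶠ i in (U : Filter ι),
      (p.1 ≠ p.2 → δ < d i ((r p.1).1 i) ((r p.2).1 i)) ∧
      d i ((r (p.1 * p.2)).1 i) ((r p.1).1 i * (r p.2).1 i) ≤ δ * ε := by
    rintro ⟨x, y⟩ hp
    obtain ⟨hx, hy⟩ := Finset.mem_product.1 hp
    simp only at hx hy ⊢
    have e1 : ∀ᶠ i in (U : Filter ι), x ≠ y → δ < d i ((r x).1 i) ((r y).1 i) := by
      by_cases hxy : x = y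
      · exact Filter.Eventually.of_forall fun i h => absurd hxy h
      · have h1 := tendsto_udist U d hd (r x) (r y)
        have h2 := hδB (x, y) (Finset.mem_filter.2 ⟨hp, hxy⟩)
        exact (h1.eventually (lt_mem_nhds h2)).mono fun i hi _ => hi
    have e2 : ∀ᶠ i in (U : Filter ι),
        d i ((r (x * y)).1 i) ((r x).1 i * (r y).1 i) ≤ δ * ε := by
      have h1 := tendsto_udist U d hd (r (x * y)) (r x * r y)
      have h2 : (QuotientGroup.mk (r (x * y)) : Ultraproduct U d hd)
          = QuotientGroup.mk (r x * r y) := by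
        rw [QuotientGroup.mk_mul, hr x (hB x hx), hr y (hB y hy),
          hr (x * y) (Subgroup.mul_mem _ (hB x hx) (hB y hy)), ← map_mul]
        rfl
      rw [h2, hbi.self] at h1
      have h3 : (0 : ℝ) < δ * ε := mul_pos hδ hε
      exact (h1.eventually (gt_mem_nhds h3)).mono fun i hi => hi.le
    exact e1.and e2
  obtain ⟨i, hi⟩ := ((Filter.eventually_all_finset (B ×ˢ B)).2 hev).exists
  refine ⟨H i, iG i, iF i, fun u v => min 1 (d i u v / δ), biMetric_min (hd i) hδ,
    fun q => (r q).1 i, fun u v => min_le_left _ _, ?_, ?_⟩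
  · intro x hx y hy hxy
    have h1 := (hi (x, y) (Finset.mem_product.2 ⟨hx, hy⟩)).1 hxy
    refine min_eq_left ?_
    rw [le_div_iff₀ hδ, one_mul]
    exact h1.le
  · intro x hx y hy
    have h1 := (hi (x, y) (Finset.mem_product.2 ⟨hx, hy⟩)).2
    refine (min_le_right _ _).trans ?_
    rw [div_le_iff₀ hδ, mul_comm]
    exact h1

/-- The weighted maximum metric on a finite product. -/
theorem biMetric_sup {J : Type} [Finite J] {F : J → Type u} [∀ j, Group (F j)]
    {d : ∀ j, F j → F j → ℝ} (hd : ∀ j, BiMetric (F j) (d j)) (w : J → ℝ) (hw : ∀ j, 0 < w j) :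
    BiMetric (∀ j, F j) (fun u v => ⨆ j, w j * d j (u j) (v j)) := by
  have hn : ∀ (a b : ∀ j, F j) (j : J), 0 ≤ w j * d j (a j) (b j) := fun a b j =>
    mul_nonneg (hw j).le ((hd j).nonneg _ _)
  have hbd : ∀ a b : ∀ j, F j, BddAbove (Set.range fun j => w j * d j (a j) (b j)) := fun a b =>
    (Set.finite_range _).bddAbove
  refine ⟨?_, ?_, ?_, ?_, ?_⟩
  · intro a b
    constructor
    · intro h
      funext j
      have h1 := le_ciSup (hbd a b) j
      rw [h] at h1
      have h2 : w j * d j (a j) (b j) = 0 := le_antisymm h1 (hn a b j)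
      rcases mul_eq_zero.1 h2 with h3 | h3
      · exact absurd h3 (hw j).ne'
      · exact ((hd j).eq_zero_iff _ _).1 h3
    · rintro rfl
      simp only [(hd _).self, mul_zero]
      exact le_antisymm (Real.iSup_le (fun _ => le_refl 0) (le_refl 0))
        (Real.iSup_nonneg fun _ => le_refl 0)
  · intro a b
    congr 1
    funext j
    rw [(hd j).symm]
  · intro a b c
    refine Real.iSup_le ?_ (add_nonneg (Real.iSup_nonneg (hn a b)) (Real.iSup_nonneg (hn b c)))
    intro j
    have h1 := le_ciSup (hbd a b) j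
    have h2 := le_ciSup (hbd b c) j
    have h3 := mul_le_mul_of_nonneg_left ((hd j).triangle (a j) (b j) (c j)) (hw j).le
    linarith [mul_add (w j) (d j (a j) (b j)) (d j (b j) (c j))]
  · intro g a b
    congr 1
    funext j
    rw [Pi.mul_apply, Pi.mul_apply, (hd j).left]
  · intro g a b
    congr 1
    funext j
    rw [Pi.mul_apply, Pi.mul_apply, (hd j).right]

end Pool.Agent.H10UM
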