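import Mathlib
import Pool.Agent.H10UM.Basic

/-!
Bi-invariant ultrametrics and weakly sofic groups: the embedding theorem.
-/

set_option autoImplicit false

namespace Pool.Agent.H10UM

open H71MU Filter Topology

universe u

/-- The open ball of radius `r` about `1` of a bi-invariant ultrametric. -/
def ball {H : Type u} [Group H] {ρ : H → H → ℝ} (hρ : BiMetric H ρ)
    (hu : ∀ a b c, ρ a c ≤ max (ρ a b) (ρ b c)) (r : ℝ) (hr : 0 < r) : Subgroup H where
  carrier := {x | ρ x 1 < r}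
  one_mem' := by
    change ρ 1 1 < r
    rw [hρ.self]
    exact hr
  mul_mem' := by
    intro a b ha hb
    change ρ (a * b) 1 < r
    have h1 := hu (a * b) b 1
    have h2 := hρ.right b a 1
    rw [one_mul] at h2
    rw [h2] at h1
    exact lt_of_le_of_lt h1 (max_lt ha hb)
  inv_mem' := by
    intro a ha
    change ρ a⁻¹ 1 < r
    rw [hρ.inv_one]
    exact ha

theorem mem_ball {H : Type u} [Group H] {ρ : H → H → ℝ} (hρ : BiMetric H ρ)
    (hu : ∀ a b c, ρ a c ≤ max (ρ a b) (ρ b c)) (r : ℝ) (hr : 0 < r) (x : H) :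
    x ∈ ball hρ hu r hr ↔ ρ x 1 < r := Iff.rfl

theorem ball_normal {H : Type u} [Group H] {ρ : H → H → ℝ} (hρ : BiMetric H ρ)
    (hu : ∀ a b c, ρ a c ≤ max (ρ a b) (ρ b c)) (r : ℝ) (hr : 0 < r) :
    (ball hρ hu r hr).Normal := by
  constructor
  intro x hx g
  rw [mem_ball, hρ.conj]
  exact hx

/-- The embedding theorem. -/
theorem embeds_ultra {H : Type u} [Group H] {ρ : H → H → ℝ} (hρ : BiMetric H ρ)
    (hu : ∀ a b c, ρ a c ≤ max (ρ a b) (ρ b c))
    (hs : ∀ (N : Subgroup H) [N.Normal] (r : ℝ), 0 < r → (∀ x, x ∈ N ↔ ρ x 1 < r) →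
      WeaklySofic (H ⧸ N)) : EmbedsInFiniteUltraproduct H ρ := by
  classical
  apply Pool.Agent.H18PC.embeds_of_approx hρ
  intro B n
  have hn : (0 : ℝ) < 1 / ((n : ℝ) + 1) := Nat.one_div_pos_of_nat
  let C : Finset H := insert 1 B
  have hBC : ∀ x ∈ B, x ∈ C := fun x hx => Finset.mem_insert_of_mem hx
  have h1C : (1 : H) ∈ C := Finset.mem_insert_self _ _
  let V : Finset ℝ := ((C ×ˢ C).image fun p => ρ p.1 p.2).filter fun t => 0 < t
  have hV : ∀ r : {r // r ∈ V}, 0 < r.1 := fun r => (Finset.mem_filter.1 r.2).2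
  have key : ∀ r : {r // r ∈ V}, ∃ (F : Type u) (_ : Group F) (_ : Finite F) (d : F → F → ℝ)
      (_ : BiMetric F d) (f : H → F), (∀ u v, d u v ≤ 1) ∧
      (∀ x y, ρ x y < r.1 → f x = f y) ∧
      (∀ x ∈ C, ∀ y ∈ C, r.1 ≤ ρ x y → d (f x) (f y) = 1) ∧
      (∀ x ∈ C, ∀ y ∈ C, r.1 * d (f (x * y)) (f x * f y) ≤ 1 / ((n : ℝ) + 1)) := by
    intro r
    haveI := ball_normal hρ hu r.1 (hV r)
    have hws := hs (ball hρ hu r.1 (hV r)) r.1 (hV r) (fun x => Iff.rfl)
    obtain ⟨F, iG, iF, d, hd, f, h1, h2, h3⟩ := ws_approx hws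
      (C.image fun x => (QuotientGroup.mk x : H ⧸ ball hρ hu r.1 (hV r)))
      (ε := 1 / ((n : ℝ) + 1) / r.1) (div_pos hn (hV r))
    have hmem : ∀ x ∈ C, (QuotientGroup.mk x : H ⧸ ball hρ hu r.1 (hV r)) ∈
        C.image fun x => (QuotientGroup.mk x : H ⧸ ball hρ hu r.1 (hV r)) :=
      fun x hx => Finset.mem_image_of_mem _ hx
    have heq : ∀ x y, (QuotientGroup.mk x : H ⧸ ball hρ hu r.1 (hV r)) = QuotientGroup.mk y ↔
        ρ x y < r.1 := by
      intro x y
      rw [QuotientGroup.eq, mem_ball, ← hρ.eq_left]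
    refine ⟨F, iG, iF, d, hd, fun x => f (QuotientGroup.mk x), h1, ?_, ?_, ?_⟩
    · intro x y hxy
      exact congrArg f ((heq x y).2 hxy)
    · intro x hx y hy hxy
      refine h2 _ (hmem x hx) _ (hmem y hy) (fun h => ?_)
      exact absurd ((heq x y).1 h) (not_lt.2 hxy)
    · intro x hx y hy
      have h4 := h3 _ (hmem x hx) _ (hmem y hy)
      rw [← QuotientGroup.mk_mul, le_div_iff₀ (hV r), mul_comm] at h4
      exact h4
  choose F iG iF d hd f hf1 hf2 hf3 hf4 using key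
  let D : (∀ r, F r) → (∀ r, F r) → ℝ := fun u v => ⨆ r, r.1 * d r (u r) (v r)
  have hD : BiMetric (∀ r, F r) D := biMetric_sup hd (fun r => r.1) hV
  let g : H → ∀ r, F r := fun x => if x ∈ C then fun r => f r x else 1
  have hg : ∀ x ∈ C, g x = fun r => f r x := fun x hx => if_pos hx
  have hbd : ∀ a b : ∀ r, F r, BddAbove (Set.range fun r => r.1 * d r (a r) (b r)) :=
    fun a b => (Set.finite_range _).bddAbove
  have hexact : ∀ x ∈ C, ∀ y ∈ C, D (g x) (g y) = ρ x y := by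
    intro x hx y hy
    rw [hg x hx, hg y hy]
    apply le_antisymm
    · refine Real.iSup_le ?_ (hρ.nonneg _ _)
      intro r
      change r.1 * d r (f r x) (f r y) ≤ ρ x y
      rcases lt_or_ge (ρ x y) r.1 with h | h
      · rw [hf2 r x y h, (hd r).self, mul_zero]
        exact hρ.nonneg _ _
      · rw [hf3 r x hx y hy h, mul_one]
        exact h
    · rcases eq_or_lt_of_le (hρ.nonneg x y) with h | h
      · rw [← h]
        exact Real.iSup_nonneg fun r => mul_nonneg (hV r).le ((hd r).nonneg _ _)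
      · have hmem : ρ x y ∈ V := Finset.mem_filter.2
          ⟨Finset.mem_image.2 ⟨(x, y), Finset.mem_product.2 ⟨hx, hy⟩, rfl⟩, h⟩
        have h1 := le_ciSup (hbd (fun r => f r x) (fun r => f r y)) ⟨ρ x y, hmem⟩
        have h2 := hf3 ⟨ρ x y, hmem⟩ x hx y hy (le_refl _)
        simp only [h2, mul_one] at h1
        exact h1
  have hmul : ∀ x ∈ C, ∀ y ∈ C, D (fun r => f r (x * y)) (g x * g y) ≤ 1 / ((n : ℝ) + 1) := by
    intro x hx y hy
    rw [hg x hx, hg y hy]
    refine Real.iSup_le ?_ hn.le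
    intro r
    exact hf4 r x hx y hy
  refine ⟨∀ r, F r, inferInstance, inferInstance, D, hD, g, ?_, ?_, ?_⟩
  · intro x
    by_cases hx : x ∈ C
    · have h1 := hD.triangle (g x) (g 1) 1
      have h2 := hexact x hx 1 h1C
      have h3 := hmul 1 h1C 1 h1C
      have h4 : (fun r => f r ((1 : H) * 1)) = g 1 := by
        rw [hg 1 h1C, one_mul]
      rw [h4] at h3
      have h5 := hD.left (g 1) 1 (g 1)
      rw [mul_one] at h5
      rw [h5, hD.symm] at h3
      have h6 : 1 / ((n : ℝ) + 1) ≤ 1 := by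
        rw [div_le_one (by positivity)]
        linarith [(Nat.cast_nonneg n : (0 : ℝ) ≤ n)]
      linarith
    · have h1 : g x = 1 := if_neg hx
      rw [h1, hD.self]
      linarith [hρ.nonneg x 1]
  · intro x hx y hy hxy
    have h1 := hmul x (hBC x hx) y (hBC y hy)
    rw [hg (x * y) (hBC _ hxy)]
    exact h1
  · intro x hx y hy
    rw [hexact x (hBC x hx) y (hBC y hy), sub_self, abs_zero]
    exact hn.le

end Pool.Agent.H10UM
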