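import Mathlib
import Pool.Agent.H10UM.Main

/-!
Weakly sofic groups: countable groups suffice, locally residually finite groups, discrete metrics.
-/

set_option autoImplicit false

namespace Pool.Agent.H10UM

open H71MU

universe u

theorem countable_closure {G : Type u} [Group G] (S : Finset G) :
    Countable (Subgroup.closure (S : Set G)) := by
  rw [FreeGroup.closure_eq_range]
  exact (Set.countable_range _).to_subtype

/-- Transport along the inclusion of the finitely generated subgroups. -/
theorem weaklySofic_of_fg {G : Type u} [Group G]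
    (h : ∀ S : Finset G, WeaklySofic (Subgroup.closure (S : Set G))) : WeaklySofic G := by
  intro S
  let S' : Finset (Subgroup.closure (S : Set G)) :=
    S.preimage Subtype.val Subtype.val_injective.injOn
  obtain ⟨ι, H, iG, iF, d, hd, U, φ, hφ⟩ := h S S'
  have htop : Subgroup.closure (S' : Set (Subgroup.closure (S : Set G))) = ⊤ := by
    rw [Finset.coe_preimage]
    exact Subgroup.closure_closure_coe_preimage
  let ψ : Subgroup.closure (S : Set G) →*
      Subgroup.closure (S' : Set (Subgroup.closure (S : Set G))) :=
    { toFun := fun g => ⟨g, by rw [htop]; exact Subgroup.mem_top g⟩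
      map_one' := rfl
      map_mul' := fun _ _ => rfl }
  refine ⟨ι, H, iG, iF, d, hd, U, φ.comp ψ, ?_⟩
  intro a b hab
  exact congrArg Subtype.val (hφ hab)

theorem weaklySofic_of_countable (h : ∀ (Q : Type u) [Group Q], Countable Q → WeaklySofic Q)
    (G : Type u) [Group G] : WeaklySofic G :=
  weaklySofic_of_fg fun S => h _ (countable_closure S)

/-- A group with some metric which embeds is weakly sofic. -/
theorem weaklySofic_of_embeds {G : Type u} [Group G] {ρ : G → G → ℝ}
    (h : EmbedsInFiniteUltraproduct G ρ) : WeaklySofic G := by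
  intro S
  obtain ⟨ι, H, iG, iF, d, hd, U, φ, hφ, -⟩ := h
  refine ⟨ι, H, iG, iF, d, hd, U, φ.comp (Subgroup.closure (S : Set G)).subtype, ?_⟩
  exact hφ.comp Subtype.val_injective

open Classical in
/-- The discrete metric. -/
noncomputable def disc (G : Type u) (a b : G) : ℝ := if a = b then 0 else 1

theorem disc_self {G : Type u} (a : G) : disc G a a = 0 := if_pos rfl

theorem disc_ne {G : Type u} {a b : G} (h : a ≠ b) : disc G a b = 1 := if_neg h

theorem disc_nonneg {G : Type u} (a b : G) : 0 ≤ disc G a b := by
  by_cases h : a = b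
  · rw [h, disc_self]
  · rw [disc_ne h]
    exact zero_le_one

theorem disc_le {G : Type u} (a b : G) : disc G a b ≤ 1 := by
  by_cases h : a = b
  · rw [h, disc_self]
    exact zero_le_one
  · rw [disc_ne h]

theorem disc_ultra {G : Type u} (a b c : G) : disc G a c ≤ max (disc G a b) (disc G b c) := by
  by_cases h : a = b
  · rw [h]
    exact le_max_right _ _
  · rw [disc_ne h]
    exact (disc_le a c).trans (le_max_left _ _)

theorem disc_biMetric (G : Type u) [Group G] : BiMetric G (disc G) := by
  refine ⟨?_, ?_, ?_, ?_, ?_⟩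
  · intro a b
    constructor
    · intro h
      by_contra hab
      rw [disc_ne hab] at h
      exact one_ne_zero h
    · rintro rfl
      exact disc_self a
  · intro a b
    by_cases h : a = b
    · rw [h]
    · rw [disc_ne h, disc_ne (Ne.symm h)]
  · intro a b c
    refine (disc_ultra a b c).trans (max_le ?_ ?_)
    · linarith [disc_nonneg b c]
    · linarith [disc_nonneg a b]
  · intro g a b
    by_cases h : a = b
    · rw [h, disc_self, disc_self]
    · rw [disc_ne h, disc_ne (fun h' => h (mul_left_cancel h'))]
  · intro g a b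
    by_cases h : a = b
    · rw [h, disc_self, disc_self]
    · rw [disc_ne h, disc_ne (fun h' => h (mul_right_cancel h'))]

/-- A residually finite group with the discrete metric embeds. -/
theorem embeds_of_rf {G : Type u} [Group G]
    (h : ∀ g : G, g ≠ 1 → ∃ K : Subgroup G, K.Normal ∧ K.FiniteIndex ∧ g ∉ K) :
    EmbedsInFiniteUltraproduct G (disc G) := by
  classical
  refine embeds_of_local (disc_biMetric G) ?_
  intro B
  have h' : ∀ g : G, ∃ K : Subgroup G, K.Normal ∧ K.FiniteIndex ∧ (g ≠ 1 → g ∉ K) := by
    intro g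
    by_cases hg : g = 1
    · exact ⟨⊤, inferInstance, inferInstance, fun h => absurd hg h⟩
    · obtain ⟨K, h1, h2, h3⟩ := h g hg
      exact ⟨K, h1, h2, fun _ => h3⟩
  choose K hK1 hK2 hK3 using h'
  let I : Finset G := (B ×ˢ B).image fun p => p.1⁻¹ * p.2
  let N : Subgroup G := ⨅ g : {g // g ∈ I}, K g.1
  have : ∀ g : {g // g ∈ I}, (K g.1).Normal := fun g => hK1 g.1
  have : ∀ g : {g // g ∈ I}, (K g.1).FiniteIndex := fun g => hK2 g.1
  have hN1 : N.Normal := Subgroup.normal_iInf_normal fun g => hK1 g.1
  have hN2 : N.FiniteIndex := Subgroup.finiteIndex_iInf fun g => hK2 g.1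
  refine ⟨G ⧸ N, inferInstance, inferInstance, disc (G ⧸ N), disc_biMetric _,
    fun x => QuotientGroup.mk x, ?_, ?_, ?_⟩
  · intro x
    by_cases hx : x = 1
    · rw [hx, disc_self]
      exact le_of_eq (disc_self _)
    · rw [disc_ne hx]
      exact disc_le _ _
  · intro x _ y _ _
    exact QuotientGroup.mk_mul _ _ _
  · intro x hx y hy
    by_cases hxy : x = y
    · rw [hxy, disc_self, disc_self]
    · rw [disc_ne hxy]
      refine disc_ne (fun heq => ?_)
      rw [QuotientGroup.eq] at heq
      have hmem : x⁻¹ * y ∈ I :=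
        Finset.mem_image.2 ⟨(x, y), Finset.mem_product.2 ⟨hx, hy⟩, rfl⟩
      have h1 := (Subgroup.mem_iInf.1 heq) ⟨x⁻¹ * y, hmem⟩
      refine hK3 _ (fun h2 => hxy ?_) h1
      exact inv_mul_eq_one.1 h2

/-- A group whose finitely generated subgroups are residually finite is weakly sofic. -/
theorem weaklySofic_of_rf {G : Type u} [Group G]
    (h : ∀ (S : Finset G) (g : Subgroup.closure (S : Set G)), g ≠ 1 →
      ∃ K : Subgroup (Subgroup.closure (S : Set G)), K.Normal ∧ K.FiniteIndex ∧ g ∉ K) :
    WeaklySofic G :=
  weaklySofic_of_fg fun S => weaklySofic_of_embeds (embeds_of_rf (h S))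

end Pool.Agent.H10UM
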